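import Pool.Agent.H516.PCF.All

/-!
# PCF (owner helper516), task TAME: tame extensions and value groups
-/

set_option autoImplicit false

open NumberField IsDedekindDomain Ideal

namespace Pool.Agent.H665.PCF

open Pool.Agent.H516.PCF

/-! ### inertia groups -/

theorem card_in {K L : Type} [Field K] [NumberField K] [Field L] [NumberField L] [Algebra K L]
    [IsGalois K L] (P : Ideal (𝓞 L)) [P.IsPrime] (hP : P ≠ ⊥) :
    Nat.card (P.inertia Gal(L/K)) = ramificationIdx' (P.under (𝓞 K)) P := by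
  have := IsGaloisGroup.of_isFractionRing Gal(L/K) (𝓞 K) (𝓞 L) K L
  have hp0 : P.under (𝓞 K) ≠ ⊥ := by
    intro h
    exact hP (Ideal.eq_bot_of_comap_eq_bot h)
  have hmax : (P.under (𝓞 K)).IsMaximal := Ideal.IsPrime.isMaximal inferInstance hp0
  have : Finite (𝓞 K ⧸ P.under (𝓞 K)) := Ring.HasFiniteQuotients.finiteQuotient hp0
  rw [card_inertia_eq_ramificationIdxIn (P.under (𝓞 K)) P,
    ramificationIdxIn_eq_ramificationIdx (P.under (𝓞 K)) P Gal(L/K),
    ramificationIdx'_eq_ramificationIdx _ _ hp0]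

theorem inert {K K' L E : Type} [Field K] [NumberField K] [Field K'] [NumberField K']
    [Field L] [NumberField L] [Field E] [NumberField E] [Algebra K K'] [Algebra K L] [Algebra K E]
    [Algebra K' E] [Algebra L E] [IsScalarTower K K' E] [IsScalarTower K L E] [IsGalois K L]
    [IsGalois K' E]
    (hgen : ∀ σ : E ≃ₐ[K'] E, (∀ x : L, σ (algebraMap L E x) = algebraMap L E x) → σ = 1)
    (P : Ideal (𝓞 E)) [P.IsPrime] (hP : P ≠ ⊥) (p : ℕ) (hp : p.Prime)
    (h : ¬ p ∣ ramificationIdx' ((P.under (𝓞 L)).under (𝓞 K)) (P.under (𝓞 L))) :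
    ¬ p ∣ ramificationIdx' (P.under (𝓞 K')) P := by
  have hPL : P.under (𝓞 L) ≠ ⊥ := by
    intro h
    exact hP (Ideal.eq_bot_of_comap_eq_bot h)
  rw [← card_in (K := K) (L := L) (P.under (𝓞 L)) hPL] at h
  rw [← card_in (K := K') (L := E) P hP]
  intro hdvd
  have : Fact p.Prime := ⟨hp⟩
  obtain ⟨σ, hσ⟩ := exists_prime_orderOf_dvd_card' p hdvd
  have hσ1 : σ ≠ 1 := by
    rintro rfl
    rw [orderOf_one] at hσ
    exact hp.one_lt.ne hσ
  set s : E ≃ₐ[K'] E := (σ : Gal(E/K')) with hs
  set s' : E ≃ₐ[K] E := s.restrictScalars K with hs'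
  set τ : L ≃ₐ[K] L := AlgEquiv.restrictNormalHom L s' with hτ
  have hτc : ∀ x : L, algebraMap L E (τ x) = s (algebraMap L E x) := fun x =>
    AlgEquiv.restrictNormal_commutes s' L x
  -- `τ` is in the inertia group
  have hτI : τ ∈ (P.under (𝓞 L)).inertia Gal(L/K) := by
    intro x
    show algebraMap (𝓞 L) (𝓞 E) (τ • x - x) ∈ P
    have h1 := σ.2 (algebraMap (𝓞 L) (𝓞 E) x)
    have h2 : algebraMap (𝓞 L) (𝓞 E) (τ • x - x) =
        (σ : Gal(E/K')) • (algebraMap (𝓞 L) (𝓞 E) x) - algebraMap (𝓞 L) (𝓞 E) x := by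
      have h3 : algebraMap (𝓞 L) (𝓞 E) (τ • x) =
          (σ : Gal(E/K')) • (algebraMap (𝓞 L) (𝓞 E) x) := RingOfIntegers.ext (hτc x)
      rw [map_sub, h3]
    rw [h2]
    exact h1
  have hspow : s ^ p = 1 := by
    have := pow_orderOf_eq_one σ
    rw [hσ] at this
    have h1 := congrArg (Subtype.val) this
    rwa [Subgroup.coe_pow] at h1
  have hτpow : τ ^ p = 1 := by
    apply AlgEquiv.ext
    intro x
    apply (algebraMap L E).injective
    have h1 : ∀ k : ℕ, algebraMap L E ((τ ^ k) x) = (s ^ k) (algebraMap L E x) := by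
      intro k
      induction k with
      | zero => rfl
      | succ k ih =>
        rw [pow_succ', pow_succ']
        show algebraMap L E (τ ((τ ^ k) x)) = s ((s ^ k) (algebraMap L E x))
        rw [hτc, ih]
    rw [h1, hspow]
    rfl
  have hτ1 : τ = 1 := by
    set t : (P.under (𝓞 L)).inertia Gal(L/K) := ⟨τ, hτI⟩ with ht
    have h1 : t ^ p = 1 := Subtype.ext hτpow
    have h2 : orderOf t ∣ p := orderOf_dvd_of_pow_eq_one h1
    have h3 : orderOf t ∣ Nat.card ((P.under (𝓞 L)).inertia Gal(L/K)) := orderOf_dvd_natCard t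
    rcases (Nat.dvd_prime hp).mp h2 with h4 | h4
    · rw [orderOf_eq_one_iff] at h4
      exact congrArg Subtype.val h4
    · rw [h4] at h3
      exact absurd h3 h
  apply hσ1
  apply Subtype.ext
  apply hgen
  intro x
  rw [← hs, ← hτc x, hτ1]
  rfl

/-! ### valuations -/

theorem val_pow {E K' : Type} [Field E] [NumberField E] [Field K'] [NumberField K'] [Algebra K' E]
    {Γ : Type} [LinearOrderedCommGroupWithZero Γ] (v : Valuation E Γ) (P : HeightOneSpectrum (𝓞 E))
    (hv1 : ∀ x : 𝓞 E, v (algebraMap (𝓞 E) E x) ≤ 1)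
    (hv2 : ∀ x : 𝓞 E, v (algebraMap (𝓞 E) E x) < 1 ↔ x ∈ P.asIdeal) (x : E) (hx : x ≠ 0) :
    ∃ t : K', t ≠ 0 ∧ ∃ k : ℤ,
      v x ^ (ramificationIdx' (P.asIdeal.under (𝓞 K')) P.asIdeal) = v (algebraMap K' E t) ^ k := by
  have hQ0 : P.asIdeal.under (𝓞 K') ≠ ⊥ := by
    intro h
    exact P.ne_bot (Ideal.eq_bot_of_comap_eq_bot h)
  have hPp := P.isPrime
  let Q : HeightOneSpectrum (𝓞 K') := ⟨P.asIdeal.under (𝓞 K'), inferInstance, hQ0⟩
  have hlo : P.asIdeal.LiesOver Q.asIdeal := ⟨rfl⟩
  have hnot : ∀ d : P.asIdeal.primeCompl, v (algebraMap (𝓞 E) E d) = 1 := by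
    intro d
    refine le_antisymm (hv1 d) (not_lt.mp fun h => d.2 ((hv2 d).mp h))
  have heq : (P.valuation E).IsEquiv v := by
    apply Valuation.isEquiv_of_val_le_one
    intro y
    constructor
    · intro hy
      obtain ⟨a, d, had⟩ := P.exists_primeCompl_mul_eq_of_integer y hy
      have h1 := congrArg v had
      rw [map_mul, hnot, mul_one] at h1
      rw [h1]
      exact hv1 a
    · intro hy
      by_contra hcon
      rw [not_le] at hcon
      have hy0 : y ≠ 0 := by
        rintro rfl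
        rw [map_zero] at hcon
        exact not_lt_zero hcon
      have h1 : P.valuation E y⁻¹ < 1 := by
        rw [map_inv₀]
        exact inv_lt_one_of_one_lt₀ hcon
      obtain ⟨a, d, had⟩ := P.exists_primeCompl_mul_eq_of_integer y⁻¹ h1.le
      have h2 := congrArg (P.valuation E) had
      rw [map_mul] at h2
      have h3 : P.valuation E (algebraMap (𝓞 E) E a) < 1 := by
        rw [← h2]
        exact lt_of_le_of_lt (mul_le_mul' le_rfl (P.valuation_le_one _)) (by rwa [mul_one])
      have h4 : a ∈ P.asIdeal := (P.valuation_lt_one_iff_mem a).mp h3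
      have h5 := (hv2 a).mpr h4
      have h6 := congrArg v had
      rw [map_mul, hnot, mul_one, map_inv₀] at h6
      rw [← h6] at h5
      have h7 : v y ≠ 0 := (Valuation.ne_zero_iff v).mpr hy0
      have h8 : (1 : Γ) ≤ (v y)⁻¹ := (one_le_inv₀ (zero_lt_iff.mpr h7)).mpr hy
      exact absurd h5 (not_lt.mpr h8)
  obtain ⟨t, ht⟩ := Q.valuation_exists_uniformizer K'
  have ht0 : t ≠ 0 := by
    rintro rfl
    rw [map_zero] at ht
    exact WithZero.exp_ne_zero ht.symm
  have hPt := HeightOneSpectrum.valuation_liesOver (K := K') E Q P t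
  rw [ht] at hPt
  have hPx : P.valuation E x ≠ 0 := (Valuation.ne_zero_iff _).mpr hx
  obtain ⟨k, hk⟩ : ∃ k : ℤ, P.valuation E x = WithZero.exp k := ⟨WithZero.log (P.valuation E x), (WithZero.exp_log hPx).symm⟩
  refine ⟨t, ht0, -k, ?_⟩
  have h1 : P.valuation E (x ^ (ramificationIdx' Q.asIdeal P.asIdeal)) =
      P.valuation E ((algebraMap K' E t) ^ (-k)) := by
    rw [map_pow, map_zpow₀, ← hPt, hk, ← WithZero.exp_nsmul, ← WithZero.exp_nsmul, ← WithZero.exp_zsmul]
    congr 1
    simp only [nsmul_eq_mul, smul_eq_mul]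
    ring
  have h2 := heq.eq_iff.mp h1
  rwa [map_pow, map_zpow₀] at h2

theorem w_one {F : Type} [Field F] {p : ℕ} {w : F → ℝ} (hw : NA p w) : w 1 = 0 := by
  have := hw.mul 1 1 one_ne_zero one_ne_zero
  rw [mul_one] at this
  linarith

open Classical in
/-- the valuation given by `w` -/
noncomputable def vv {F : Type} [Field F] {p : ℕ} {w : F → ℝ} (hw : NA p w) :
    Valuation F NNReal where
  toFun := fun x => if x = 0 then 0 else Real.toNNReal (Real.exp (-(w x)))
  map_zero' := if_pos rfl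
  map_one' := by
    rw [if_neg one_ne_zero, w_one hw, neg_zero, Real.exp_zero, Real.toNNReal_one]
  map_mul' := by
    intro x y
    by_cases hx : x = 0
    · simp [hx]
    by_cases hy : y = 0
    · simp [hy]
    rw [if_neg hx, if_neg hy, if_neg (mul_ne_zero hx hy), ← Real.toNNReal_mul (Real.exp_pos _).le,
      hw.mul x y hx hy, ← Real.exp_add]
    congr 2
    ring
  map_add_le_max' := by
    intro x y
    by_cases hx : x = 0
    · rw [hx, zero_add]
      exact le_max_right _ _
    by_cases hy : y = 0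
    · rw [hy, add_zero]
      exact le_max_left _ _
    by_cases hxy : x + y = 0
    · rw [if_pos hxy]
      exact zero_le
    rw [if_neg hx, if_neg hy, if_neg hxy]
    have h1 := hw.add x y hx hy hxy
    rcases min_le_iff.mp h1 with h2 | h2
    · exact le_max_of_le_left (Real.toNNReal_le_toNNReal (Real.exp_le_exp.mpr (by linarith)))
    · exact le_max_of_le_right (Real.toNNReal_le_toNNReal (Real.exp_le_exp.mpr (by linarith)))

open Classical in
theorem vv_apply {F : Type} [Field F] {p : ℕ} {w : F → ℝ} (hw : NA p w) {x : F} (hx : x ≠ 0) :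
    ((vv hw x : NNReal) : ℝ) = Real.exp (-(w x)) := by
  have h1 : vv hw x = if x = 0 then 0 else Real.toNNReal (Real.exp (-(w x))) := rfl
  rw [h1, if_neg hx, Real.coe_toNNReal _ (Real.exp_pos _).le]

/-- the prime ideal of a valuation -/
def prm {E : Type} [Field E] [NumberField E] (v : Valuation E NNReal)
    (hv1 : ∀ x : 𝓞 E, v (algebraMap (𝓞 E) E x) ≤ 1) : Ideal (𝓞 E) where
  carrier := {x | v (algebraMap (𝓞 E) E x) < 1}
  zero_mem' := by
    show v (algebraMap (𝓞 E) E 0) < 1
    rw [map_zero, map_zero]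
    exact zero_lt_one
  add_mem' := by
    intro a b ha hb
    show v (algebraMap (𝓞 E) E (a + b)) < 1
    rw [map_add]
    exact lt_of_le_of_lt (v.map_add _ _) (max_lt ha hb)
  smul_mem' := by
    intro c a ha
    show v (algebraMap (𝓞 E) E (c * a)) < 1
    rw [map_mul, map_mul]
    exact lt_of_le_of_lt (mul_le_mul' (hv1 c) le_rfl) (by rwa [one_mul])

theorem prm_prime {E : Type} [Field E] [NumberField E] (v : Valuation E NNReal)
    (hv1 : ∀ x : 𝓞 E, v (algebraMap (𝓞 E) E x) ≤ 1) : (prm v hv1).IsPrime := by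
  constructor
  · intro h
    have h1 : (1 : 𝓞 E) ∈ prm v hv1 := by rw [h]; trivial
    have h2 : v (algebraMap (𝓞 E) E 1) < 1 := h1
    rw [map_one, map_one] at h2
    exact lt_irrefl _ h2
  · intro a b hab
    by_contra hcon
    rw [not_or] at hcon
    have h1 : ¬ v (algebraMap (𝓞 E) E a) < 1 := hcon.1
    have h2 : ¬ v (algebraMap (𝓞 E) E b) < 1 := hcon.2
    have h3 : v (algebraMap (𝓞 E) E (a * b)) < 1 := hab
    rw [map_mul, map_mul, le_antisymm (hv1 a) (not_lt.mp h1), le_antisymm (hv1 b) (not_lt.mp h2),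
      one_mul] at h3
    exact lt_irrefl _ h3

theorem int_le {E : Type} [Field E] [NumberField E] (v : Valuation E NNReal) (x : 𝓞 E) :
    v (algebraMap (𝓞 E) E x) ≤ 1 := by
  have h1 : IsIntegral ℤ (algebraMap (𝓞 E) E x) := x.2
  have h2 : IsIntegral v.integer (algebraMap (𝓞 E) E x) := h1.tower_top
  exact (Valuation.integer.integers v).mem_of_integral h2

/-- **S_TAME** -/
theorem tame : S_TAME := by
  intro K _ _ L _ _ hL K' _ p w hp hw hK' x hx hx0
  let E : IntermediateField K (AlgebraicClosure K) := K' ⊔ L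
  have hfin : FiniteDimensional K E :=
    inferInstanceAs (FiniteDimensional K (K' ⊔ L : IntermediateField K (AlgebraicClosure K)))
  have : NumberField L := NumberField.of_module_finite K L
  have : NumberField E := NumberField.of_module_finite K E
  let K₁ : IntermediateField K E := IntermediateField.restrict (le_sup_left : K' ≤ K' ⊔ L)
  let L₁ : IntermediateField K E := IntermediateField.restrict (le_sup_right : L ≤ K' ⊔ L)
  have htop : K₁ ⊔ L₁ = ⊤ := by
    rw [← IntermediateField.lift_inj, IntermediateField.lift_sup, IntermediateField.lift_top,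
      IntermediateField.lift_restrict, IntermediateField.lift_restrict]
  have : NumberField K₁ := NumberField.of_module_finite K K₁
  have : IsGalois K L₁ := IsGalois.of_algEquiv
    (IntermediateField.restrictAlgEquiv (le_sup_right : L ≤ K' ⊔ L))
  have : IsGalois K₁ E := IsGalois.sup_right L₁ K₁ (by rw [sup_comm]; exact htop)
  let _ : Algebra L E := (IntermediateField.inclusion (le_sup_right : L ≤ K' ⊔ L)).toRingHom.toAlgebra
  have : IsScalarTower K L E := IsScalarTower.of_algebraMap_eq fun y => rfl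
  have hgen : ∀ σ : E ≃ₐ[K₁] E, (∀ x : L, σ (algebraMap L E x) = algebraMap L E x) → σ = 1 := by
    intro σ hσ
    set s : E ≃ₐ[K] E := σ.restrictScalars K with hs
    have h1 : s ∈ K₁.fixingSubgroup := by
      rw [IntermediateField.mem_fixingSubgroup_iff]
      intro y hy
      exact σ.commutes ⟨y, hy⟩
    have h2 : s ∈ L₁.fixingSubgroup := by
      rw [IntermediateField.mem_fixingSubgroup_iff]
      intro y hy
      have hy' : (y : AlgebraicClosure K) ∈ L := (IntermediateField.mem_restrict _ y).mp hy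
      exact hσ ⟨y, hy'⟩
    have h3 : s ∈ (K₁ ⊔ L₁).fixingSubgroup := by
      rw [IntermediateField.fixingSubgroup_sup]
      exact ⟨h1, h2⟩
    rw [htop, IntermediateField.fixingSubgroup_top, Subgroup.mem_bot] at h3
    apply AlgEquiv.ext
    intro y
    exact DFunLike.congr_fun h3 y
  set v : Valuation E NNReal := (vv hw).comap (algebraMap E (AlgebraicClosure K)) with hv
  have hvx : ∀ y : E, y ≠ 0 → ((v y : NNReal) : ℝ) = Real.exp (-(w (y : AlgebraicClosure K))) := by
    intro y hy
    exact vv_apply hw (fun h => hy (Subtype.ext h))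
  have hpm : ∀ y : 𝓞 E, y ∈ prm v (int_le v) ↔ v (algebraMap (𝓞 E) E y) < 1 := fun y => Iff.rfl
  have hpE : ((p : ℕ) : 𝓞 E) ∈ prm v (int_le v) := by
    rw [hpm, map_natCast]
    have h1 : ((p : ℕ) : E) ≠ 0 := by exact_mod_cast hp.ne_zero
    have h2 := hvx _ h1
    have h3 : Real.exp (-(w (((p : ℕ) : E) : AlgebraicClosure K))) < 1 := by
      rw [Real.exp_lt_one_iff]
      have : (((p : ℕ) : E) : AlgebraicClosure K) = (p : AlgebraicClosure K) := map_natCast E.val p
      rw [this]
      linarith [hw.pos]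
    rw [← h2] at h3
    exact_mod_cast h3
  have hprime : (prm v (int_le v)).IsPrime := prm_prime v (int_le v)
  have hne : prm v (int_le v) ≠ ⊥ := by
    intro h
    rw [h, Ideal.mem_bot] at hpE
    exact hp.ne_zero (by exact_mod_cast hpE)
  set P : Ideal (𝓞 E) := prm v (int_le v) with hP
  have h1 := hL (P.under (𝓞 L)) inferInstance p hp (by
    show algebraMap (𝓞 L) (𝓞 E) (p : 𝓞 L) ∈ P
    rw [map_natCast]
    exact hpE)
  have h2 := inert (K := K) (K' := K₁) (L := L) (E := E) hgen P hne p hp h1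
  have hxE : (⟨x, hx⟩ : E) ≠ 0 := fun h => hx0 (congrArg Subtype.val h)
  obtain ⟨t, ht, k, hk⟩ := val_pow (K' := K₁) v ⟨P, hprime, hne⟩ (int_le v) (fun y => (hpm y).symm)
    (⟨x, hx⟩ : E) hxE
  set e : ℕ := ramificationIdx' (P.under (𝓞 K₁)) P with he
  have ht' : (algebraMap K₁ E t) ≠ 0 := fun h => ht (Subtype.ext h)
  have hk' := congrArg (fun a : NNReal => (a : ℝ)) hk
  simp only [NNReal.coe_pow, NNReal.coe_zpow] at hk'
  rw [hvx _ hxE, hvx _ ht', ← Real.exp_nat_mul, ← Real.rpow_intCast, ← Real.exp_mul] at hk'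
  have hk2 := Real.exp_injective hk'
  obtain ⟨z, hz⟩ := hK' ((algebraMap K₁ E t : E) : AlgebraicClosure K)
    ((IntermediateField.mem_restrict _ _).mp t.2) (fun h => ht' (Subtype.ext h))
  refine ⟨e, h2, k * z, ?_⟩
  rw [hz] at hk2
  push_cast
  have h4 : (e : ℝ) * -(w x) = -(z : ℝ) * k := hk2
  linarith

end Pool.Agent.H665.PCF
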